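import Pool.Agent.Helper35.HS3.GoalsA

/-! Project HS3 (MP_66e6f4_an): packet MAXP, maximum principle on bounded open sets. -/

namespace Pool.Agent.Helper59.HS3.MAXP

open MeasureTheory Set Filter Topology Metric
open scoped ContDiff
open Pool.Agent.Helper35.HS3

/-- Second derivative test, necessary condition. -/
theorem deriv_deriv_nonpos {φ : ℝ → ℝ} (hmax : IsLocalMax φ 0) (hc : ContinuousAt φ 0) :
    deriv (deriv φ) 0 ≤ 0 := by
  by_contra hneg
  push Not at hneg
  have h0 : deriv φ 0 = 0 := hmax.deriv_eq_zero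
  have hmin : IsLocalMin φ 0 := isLocalMin_of_deriv_deriv_pos hneg h0 hc
  have heq : φ =ᶠ[𝓝 0] fun _ => φ 0 := by
    filter_upwards [hmin, hmax] with t h1 h2 using le_antisymm h2 h1
  have h1 : deriv φ =ᶠ[𝓝 0] fun _ => (0 : ℝ) := by
    have := heq.deriv
    simpa using this
  have h2 : deriv (deriv φ) 0 = 0 := by
    rw [h1.deriv_eq]
    simp
  linarith

theorem lap_nonpos {w : E → ℝ} {m : E} (hw : ContDiffAt ℝ 2 w m) (hmax : IsLocalMax w m) :
    lap w m ≤ 0 := by
  unfold lap
  refine Finset.sum_nonpos fun i _ => ?_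
  set γ : ℝ → E := fun t => m + t • bv i with hγ
  have hγ0 : γ 0 = m := by simp [hγ]
  have hγd : ∀ t, HasDerivAt γ (bv i) t := by
    intro t
    have := ((hasDerivAt_id t).smul_const (bv i)).const_add m
    simpa [hγ] using this
  have hγc : ContinuousAt γ 0 := (hγd 0).continuousAt
  have ht : Tendsto γ (𝓝 0) (𝓝 m) := by
    have := hγc.tendsto
    rwa [hγ0] at this
  have h1 : deriv (fun t => w (γ t)) =ᶠ[𝓝 0] fun t => pd i w (γ t) := by
    filter_upwards [ht.eventually (hw.eventually (by simp))] with t ht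
    have := (ht.differentiableAt (by norm_num)).hasFDerivAt.comp_hasDerivAt t (hγd t)
    exact this.deriv
  have h2 : deriv (deriv fun t => w (γ t)) 0 = pd i (pd i w) m := by
    rw [h1.deriv_eq]
    have h4 : DifferentiableAt ℝ (pd i w) m := (contDiffAt_pd hw).differentiableAt (by norm_num)
    have h5 : HasFDerivAt (pd i w) (fderiv ℝ (pd i w) m) (γ 0) := by
      rw [hγ0]
      exact h4.hasFDerivAt
    exact (h5.comp_hasDerivAt 0 (hγd 0)).deriv
  rw [← h2]
  refine deriv_deriv_nonpos ?_ ?_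
  · have : IsLocalMax (w ∘ γ) 0 := by
      have h6 : IsLocalMax w (γ 0) := by rwa [hγ0]
      exact h6.comp_continuous hγc
    exact this
  · have h6 : ContinuousAt w (γ 0) := by
      rw [hγ0]
      exact hw.continuousAt
    exact h6.comp hγc

theorem lap_norm_sq (x : E) : lap (fun y : E => ‖y‖ ^ 2) x = 6 := by
  unfold lap
  have h : ∀ i : Fin 3, pd i (fun y : E => ‖y‖ ^ 2) = fun y : E => 2 * y i := by
    intro i; funext y; exact pd_norm_sq i y
  have h2 : ∀ i : Fin 3, pd i (pd i (fun y : E => ‖y‖ ^ 2)) x = 2 := by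
    intro i
    rw [h i, pd_const_mul 2 ((contDiff_coord i (n := 1)).contDiffAt.differentiableAt (by norm_num)),
      pd_coord]
    simp
  rw [Finset.sum_congr rfl fun i _ => h2 i]
  norm_num

theorem proof : MAXP_stmt := by
  intro U v hU hbd hcont hcd hlap hfr x hx
  by_contra hneg
  push Not at hneg
  have hcomp : IsCompact (closure U) := hbd.isCompact_closure
  obtain ⟨R, hR⟩ := hbd.subset_closedBall (0 : E)
  have hRc : closure U ⊆ closedBall (0 : E) R := closure_minimal hR isClosed_closedBall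
  set ε : ℝ := v x / (2 * (R ^ 2 + 1)) with hε
  have hR1 : 0 < R ^ 2 + 1 := by positivity
  have hεpos : 0 < ε := by positivity
  have hεR : ε * R ^ 2 < v x := by
    have h1 : ε * (R ^ 2 + 1) = v x / 2 := by rw [hε]; field_simp
    nlinarith
  set w : E → ℝ := fun y => v y + (ε * ‖y‖ ^ 2 + (-(ε * R ^ 2))) with hw
  have hwc : ContinuousOn w (closure U) := hcont.add (by fun_prop)
  obtain ⟨m, hm, hmax⟩ := hcomp.exists_isMaxOn ⟨x, subset_closure hx⟩ hwc
  have hle : ∀ y ∈ closure U, w y ≤ v y := by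
    intro y hy
    have h1 : ‖y‖ ≤ R := by simpa using hRc hy
    have h2 : ‖y‖ ^ 2 ≤ R ^ 2 := by gcongr
    have h3 : ε * ‖y‖ ^ 2 ≤ ε * R ^ 2 := by gcongr
    simp only [hw]
    linarith
  have hwx : 0 < w x := by
    simp only [hw]
    have : 0 ≤ ε * ‖x‖ ^ 2 := by positivity
    linarith
  have hwm : 0 < w m := lt_of_lt_of_le hwx (hmax (subset_closure hx))
  have hmU : m ∈ U := by
    have h1 : m ∈ interior U ∪ frontier U := by
      rw [← closure_eq_interior_union_frontier]
      exact hm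
    rcases h1 with h1 | h1
    · exact interior_subset h1
    · exfalso
      have h2 := hfr m h1
      have h3 := hle m hm
      linarith
  have hlocal : IsLocalMax w m := hmax.isLocalMax (mem_of_superset (hU.mem_nhds hmU) subset_closure)
  have c1 : ContDiffAt ℝ 2 (fun y : E => ‖y‖ ^ 2) m := (contDiff_norm_sq ℝ).contDiffAt
  have c2 : ContDiffAt ℝ 2 (fun y : E => ε * ‖y‖ ^ 2) m := contDiffAt_const.mul c1
  have c3 : ContDiffAt ℝ 2 (fun y : E => ε * ‖y‖ ^ 2 + (-(ε * R ^ 2))) m := c2.add contDiffAt_const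
  have hwC : ContDiffAt ℝ 2 w m := (hcd m hmU).add c3
  have h1 := lap_nonpos hwC hlocal
  have h2 : lap w m = lap v m + (ε * 6 + 0) := by
    rw [hw, lap_add (hcd m hmU) c3, lap_add c2 contDiffAt_const, lap_const_mul ε c1, lap_norm_sq,
      lap_const]
  have h3 := hlap m hmU
  rw [h2] at h1
  linarith

end Pool.Agent.Helper59.HS3.MAXP
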