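import Pool.Agent.Helper35.HS3.GoalsB

/-! Project HS3 (MP_66e6f4_an): packet THE, a smooth convex version of the positive part. -/

namespace Pool.Agent.Helper59.HS3.THE

open MeasureTheory Set Filter Topology Metric
open scoped ContDiff
open Pool.Agent.Helper35.HS3

theorem proof : THE_stmt := by
  set θ : ℝ → ℝ := fun t => ∫ s in (0 : ℝ)..t, Real.smoothTransition s with hθ
  have hc : Continuous Real.smoothTransition := Real.smoothTransition.continuous
  have hi : ∀ a b : ℝ, IntervalIntegrable Real.smoothTransition volume a b := fun a b =>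
    hc.intervalIntegrable a b
  have hd : ∀ t, HasDerivAt θ (Real.smoothTransition t) t := fun t =>
    intervalIntegral.integral_hasDerivAt_right (hi 0 t) (hc.stronglyMeasurableAtFilter _ _) hc.continuousAt
  have hdd : deriv θ = Real.smoothTransition := by
    funext t; exact (hd t).deriv
  have hzero : ∀ t, t ≤ 0 → θ t = 0 := by
    intro t ht
    have h1 : (∫ s in (0 : ℝ)..t, Real.smoothTransition s) = ∫ s in (0 : ℝ)..t, (0 : ℝ) := by
      apply intervalIntegral.integral_congr
      intro s hs
      rw [uIcc_of_ge ht] at hs
      exact Real.smoothTransition.zero_of_nonpos hs.2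
    rw [hθ]
    simp only
    rw [h1]; simp
  have hnn : ∀ t, 0 ≤ θ t := by
    intro t
    rcases le_total t 0 with ht | ht
    · rw [hzero t ht]
    · exact intervalIntegral.integral_nonneg ht fun s _ => Real.smoothTransition.nonneg s
  refine ⟨θ, ?_, hzero, ?_, ?_, ?_⟩
  · have h1 : ContDiff ℝ 1 (deriv θ) := by
      rw [hdd]; exact Real.smoothTransition.contDiff (n := 1)
    have h2 : Differentiable ℝ θ := fun t => (hd t).differentiableAt
    have := contDiff_succ_iff_deriv (n := 1) (f := θ) (𝕜 := ℝ)
    rw [show (2 : WithTop ℕ∞) = 1 + 1 by norm_num, this]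
    exact ⟨h2, by simp, h1⟩
  · intro t; rw [hdd]; exact Real.smoothTransition.nonneg t
  · intro t; rw [hdd]
    exact Real.smoothTransition.monotone.deriv_nonneg
  · intro t
    refine ⟨hnn t, ?_, ?_⟩
    · rcases le_total t 0 with ht | ht
      · rw [hzero t ht]; exact le_max_left _ _
      · rw [max_eq_right ht]
        calc θ t ≤ ∫ s in (0 : ℝ)..t, (1 : ℝ) :=
              intervalIntegral.integral_mono_on ht (hi 0 t) (by simp) fun s _ =>
                Real.smoothTransition.le_one s
          _ = t := by simp
    · rcases le_total t 1 with ht | ht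
      · linarith [hnn t]
      · have h1 : θ t = (∫ s in (0 : ℝ)..1, Real.smoothTransition s) +
            ∫ s in (1 : ℝ)..t, Real.smoothTransition s :=
          (intervalIntegral.integral_add_adjacent_intervals (hi 0 1) (hi 1 t)).symm
        have h2 : (∫ s in (1 : ℝ)..t, Real.smoothTransition s) = ∫ s in (1 : ℝ)..t, (1 : ℝ) := by
          apply intervalIntegral.integral_congr
          intro s hs
          rw [uIcc_of_le ht] at hs
          exact Real.smoothTransition.one_of_one_le hs.1
        have h3 : 0 ≤ ∫ s in (0 : ℝ)..1, Real.smoothTransition s := hnn 1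
        rw [h1, h2]
        simp
        linarith

end Pool.Agent.Helper59.HS3.THE
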